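import Pool.Agent.H156.Upcycle

/-!
# Universal partial cycles of word length other than 4 and 8

For every `k ≥ 2` there is a non-trivial upcycle for `{0, 1, 2, 3}^(4 k)`; for `k ≥ 3` the word
length `4 k` is different from `4` and `8`.
-/

set_option autoImplicit false

namespace Pool.Agent.Results.MP_0aa0f2_co.WordLength

/-- A cyclic partial word of length `N` over the alphabet `{0, …, a - 1}`: the indices are taken
modulo `N`, and `none` is the wildcard. -/
abbrev CyclicPartialWord (a N : ℕ) := ZMod N → Option (Fin a)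

/-- The window `u_i u_(i+1) … u_(i+n-1)` of `u` at position `i` covers the word `w`. -/
def Covers {a N n : ℕ} (u : CyclicPartialWord a N) (i : ZMod N) (w : Fin n → Fin a) : Prop :=
  ∀ j : Fin n, u (i + (j : ℕ)) = none ∨ u (i + (j : ℕ)) = some (w j)

/-- `u` is an upcycle for `{0, …, a - 1}^n`: every word of length `n` is covered by exactly one of
the `N` windows. -/
def IsUpcycle {a N : ℕ} (n : ℕ) (u : CyclicPartialWord a N) : Prop :=
  0 < N ∧ ∀ w : Fin n → Fin a, ∃! i : ZMod N, Covers u i w

/-- `u` contains at least one wildcard and at least one letter. -/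
def NonTrivial {a N : ℕ} (u : CyclicPartialWord a N) : Prop :=
  (∃ i, u i = none) ∧ ∃ i, u i ≠ none

/-- The periodic sequence `U` as a cyclic partial word. -/
def cyc (N : ℕ) (U : ℕ → Option (Fin 4)) : CyclicPartialWord 4 N := fun i => U i.val

theorem cyc_cast {N : ℕ} {U : ℕ → Option (Fin 4)} (hU : ∀ i, U (i + N) = U i) (q : ℕ) :
    cyc N U (q : ZMod N) = U q := by
  have h : ∀ k q, U (q + N * k) = U q := by
    intro k
    induction k with
    | zero => intro q; rfl
    | succ k ih => intro q; rw [Nat.mul_succ, ← add_assoc, hU, ih]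
  unfold cyc
  rw [ZMod.val_natCast]
  conv_rhs => rw [← Nat.mod_add_div q N, h]

/-- For every `k ≥ 3` there is a non-trivial upcycle for `{0, 1, 2, 3}^(4 k)`; the word length `4 k`
is neither `4` nor `8`. -/
theorem result : ∀ k : ℕ, 3 ≤ k → ∃ (N : ℕ) (u : CyclicPartialWord 4 N),
    IsUpcycle (4 * k) u ∧ NonTrivial u := by
  intro d hd
  obtain ⟨N, U, hN, h4, hU, hnone, hcov⟩ := Pool.Agent.H156.Upcycle.main d (by omega)
  have : NeZero N := ⟨by omega⟩
  have hadd : ∀ (i : ZMod N) (j : ℕ), cyc N U (i + (j : ℕ)) = U (i.val + j) := by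
    intro i j
    rw [← cyc_cast hU]
    congr 1
    push_cast
    rw [ZMod.natCast_zmod_val]
  refine ⟨N, cyc N U, ⟨hN, fun w => ?_⟩, ⟨⟨0, ?_⟩, ⟨1, ?_⟩⟩⟩
  · obtain ⟨i, ⟨hi, h1⟩, h2⟩ := hcov (fun x => if h : x < 4 * d then w ⟨x, h⟩ else 0)
    refine ⟨(i : ZMod N), ?_, ?_⟩
    · intro j
      rw [hadd, ZMod.val_natCast, Nat.mod_eq_of_lt hi]
      have := h1 j j.isLt
      rwa [dif_pos j.isLt] at this
    · intro i' hi'
      have h3 := h2 i'.val ⟨ZMod.val_lt i', fun x hx => by
        have := hi' ⟨x, hx⟩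
        rw [hadd] at this
        rwa [dif_pos hx]⟩
      rw [← h3, ZMod.natCast_zmod_val]
  · have := cyc_cast hU 0
    rw [Nat.cast_zero] at this
    rw [this, hnone]
  · have := cyc_cast hU 1
    rw [Nat.cast_one] at this
    rw [this, Ne, hnone]
    norm_num

end Pool.Agent.Results.MP_0aa0f2_co.WordLength
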